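import Mathlib
import Pool.Agent.H780R2.OSIDefs

set_option autoImplicit false

/-!
# No relative-error guarantee for sketch-and-solve with OSIs of fixed failure probability

The notions `OSI`, `sketchSolve`, `opt`, `frob`, `pinv` are defined in
`Pool/Agent/H780R2/OSIDefs.lean`.
-/

namespace Pool.Agent.Results.MP_4d58d7_an.FixedFailureProb

open MeasureTheory Matrix
open Pool.Agent.H780R2.Sketch
open scoped ENNReal

/-- the three values of the random matrix -/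
noncomputable def val (δ : ℝ) : Fin 3 → Matrix (Fin 2) (Fin 2) ℝ :=
  ![0, (Real.sqrt (1 - δ))⁻¹ • !![1, 0; δ, Real.sqrt (1 - δ ^ 2)],
    (Real.sqrt (1 - δ))⁻¹ • !![1, 0; -δ, Real.sqrt (1 - δ ^ 2)]]

/-- their distribution -/
noncomputable def law (δ : ℝ) : Measure (Fin 3) :=
  ENNReal.ofReal δ • Measure.dirac 0 + ENNReal.ofReal ((1 - δ) / 2) • Measure.dirac 1 +
    ENNReal.ofReal ((1 - δ) / 2) • Measure.dirac 2

lemma lintegral_law (δ : ℝ) (f : Fin 3 → ℝ≥0∞) :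
    ∫⁻ ω, f ω ∂(law δ) = ENNReal.ofReal δ * f 0 + ENNReal.ofReal ((1 - δ) / 2) * f 1 +
      ENNReal.ofReal ((1 - δ) / 2) * f 2 := by
  unfold law
  rw [lintegral_add_measure, lintegral_add_measure, lintegral_smul_measure, lintegral_smul_measure,
    lintegral_smul_measure, lintegral_dirac, lintegral_dirac, lintegral_dirac]
  rfl

lemma law_apply (δ : ℝ) (s : Set (Fin 3)) :
    law δ s = ENNReal.ofReal δ * s.indicator 1 0 + ENNReal.ofReal ((1 - δ) / 2) * s.indicator 1 1 +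
      ENNReal.ofReal ((1 - δ) / 2) * s.indicator 1 2 := by
  unfold law
  simp [Measure.dirac_apply' _ (MeasurableSet.of_discrete (s := s))]

lemma sqNorm_zero (x : Fin 2 → ℝ) : sqNorm ((0 : Matrix (Fin 2) (Fin 2) ℝ)ᵀ *ᵥ x) = 0 := by
  simp [sqNorm]

lemma sqNorm_val {δ a : ℝ} (h1 : δ < 1) (ha : a ^ 2 = δ ^ 2) (hδ : δ ^ 2 ≤ 1)
    (x : Fin 2 → ℝ) :
    sqNorm (((Real.sqrt (1 - δ))⁻¹ • !![1, 0; a, Real.sqrt (1 - δ ^ 2)])ᵀ *ᵥ x)
      = (x 0 ^ 2 + 2 * a * x 0 * x 1 + x 1 ^ 2) / (1 - δ) := by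
  have e1 : (Real.sqrt (1 - δ)) ^ 2 = 1 - δ := Real.sq_sqrt (by linarith)
  have e2 : (Real.sqrt (1 - δ ^ 2)) ^ 2 = 1 - δ ^ 2 := Real.sq_sqrt (by linarith)
  have e3 : 0 < Real.sqrt (1 - δ) := Real.sqrt_pos.2 (by linarith)
  have h2 : (1 - δ) ≠ 0 := by linarith
  unfold sqNorm
  rw [Matrix.transpose_smul, Matrix.smul_mulVec]
  simp only [Fin.sum_univ_two, Pi.smul_apply, smul_eq_mul, Matrix.mulVec, dotProduct,
    Matrix.transpose_apply, Matrix.of_apply, Matrix.cons_val', Matrix.cons_val_zero,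
    Matrix.cons_val_one, Matrix.cons_val_fin_one]
  rw [mul_pow, mul_pow, inv_pow, e1]
  field_simp
  linear_combination (x 1 ^ 2) * e2 + (x 1 ^ 2) * ha

/-- the random matrix of the example is an OSI of every dimension, with injectivity `1` -/
noncomputable def ex (δ : ℝ) (h0 : 0 < δ) (h1 : δ < 1) (r : ℕ) (α : ℝ) (hα : α ≤ 1) :
    OSI 2 2 r α δ where
  Ω := Fin 3
  mΩ := inferInstance
  P := law δ
  prob := by
    constructor
    rw [law_apply]
    simp only [Set.indicator_univ, Pi.one_apply, mul_one]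
    rw [← ENNReal.ofReal_add h0.le (by linarith), ← ENNReal.ofReal_add (by linarith) (by linarith)]
    rw [show δ + (1 - δ) / 2 + (1 - δ) / 2 = 1 by ring, ENNReal.ofReal_one]
  S := val δ
  meas := fun i j => measurable_of_finite _
  isotropy := by
    intro x
    have hδ2 : δ ^ 2 ≤ 1 := by nlinarith
    rw [lintegral_law]
    have v0 : sqNorm ((val δ 0)ᵀ *ᵥ x) = 0 := sqNorm_zero x
    have v1 : sqNorm ((val δ 1)ᵀ *ᵥ x) = (x 0 ^ 2 + 2 * δ * x 0 * x 1 + x 1 ^ 2) / (1 - δ) :=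
      sqNorm_val h1 rfl hδ2 x
    have v2 : sqNorm ((val δ 2)ᵀ *ᵥ x) = (x 0 ^ 2 + 2 * (-δ) * x 0 * x 1 + x 1 ^ 2) / (1 - δ) :=
      sqNorm_val h1 (by ring) hδ2 x
    have p1 : 0 ≤ (x 0 ^ 2 + 2 * δ * x 0 * x 1 + x 1 ^ 2) / (1 - δ) := by
      apply div_nonneg _ (by linarith)
      nlinarith [sq_nonneg (x 0 + x 1), sq_nonneg (x 0 - x 1), mul_nonneg h0.le (sq_nonneg (x 0 + x 1)), mul_nonneg (sub_nonneg.2 h1.le) (sq_nonneg (x 0)), mul_nonneg (sub_nonneg.2 h1.le) (sq_nonneg (x 1))]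
    have p2 : 0 ≤ (x 0 ^ 2 + 2 * (-δ) * x 0 * x 1 + x 1 ^ 2) / (1 - δ) := by
      apply div_nonneg _ (by linarith)
      nlinarith [sq_nonneg (x 0 + x 1), sq_nonneg (x 0 - x 1), mul_nonneg h0.le (sq_nonneg (x 0 - x 1)), mul_nonneg (sub_nonneg.2 h1.le) (sq_nonneg (x 0)), mul_nonneg (sub_nonneg.2 h1.le) (sq_nonneg (x 1))]
    have hd : (0:ℝ) ≤ (1 - δ) / 2 := by linarith
    rw [v0, v1, v2, ENNReal.ofReal_zero, mul_zero, zero_add, ← ENNReal.ofReal_mul hd,
      ← ENNReal.ofReal_mul hd, ← ENNReal.ofReal_add (by positivity) (by positivity)]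
    congr 1
    unfold sqNorm
    rw [Fin.sum_univ_two]
    have h2 : (1 - δ) ≠ 0 := by linarith
    field_simp
    ring
  injectivity := by
    intro V _
    have hδ2 : δ ^ 2 ≤ 1 := by nlinarith
    have hd : (0:ℝ) ≤ (1 - δ) / 2 := by linarith
    set s : Set (Fin 3) := {ω | ∀ x ∈ V, α * sqNorm x ≤ sqNorm ((val δ ω)ᵀ *ᵥ x)} with hs
    have key : ∀ (a : ℝ), a ^ 2 = δ ^ 2 → |a| = δ → ∀ x : Fin 2 → ℝ, α * sqNorm x ≤
        (x 0 ^ 2 + 2 * a * x 0 * x 1 + x 1 ^ 2) / (1 - δ) := by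
      intro a _ ha x
      have hx : sqNorm x = x 0 ^ 2 + x 1 ^ 2 := by unfold sqNorm; rw [Fin.sum_univ_two]
      have hx0 : 0 ≤ sqNorm x := by rw [hx]; positivity
      refine (mul_le_of_le_one_left hx0 hα).trans ?_
      rw [le_div_iff₀ (by linarith), hx]
      have h3 := abs_le.1 ha.le
      rcases abs_cases a with ⟨h4, _⟩ | ⟨h4, _⟩
      · have h5 : a = δ := by linarith
        subst h5
        nlinarith [mul_nonneg h0.le (sq_nonneg (x 0 + x 1))]
      · have h5 : a = -δ := by linarith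
        subst h5
        nlinarith [mul_nonneg h0.le (sq_nonneg (x 0 - x 1))]
    have m1 : (1 : Fin 3) ∈ s := by
      intro x _
      have v1 : sqNorm ((val δ 1)ᵀ *ᵥ x) = (x 0 ^ 2 + 2 * δ * x 0 * x 1 + x 1 ^ 2) / (1 - δ) :=
        sqNorm_val h1 rfl hδ2 x
      rw [v1]
      exact key δ rfl (abs_of_pos h0) x
    have m2 : (2 : Fin 3) ∈ s := by
      intro x _
      have v2 : sqNorm ((val δ 2)ᵀ *ᵥ x) = (x 0 ^ 2 + 2 * (-δ) * x 0 * x 1 + x 1 ^ 2) / (1 - δ) :=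
        sqNorm_val h1 (by ring) hδ2 x
      rw [v2]
      exact key (-δ) (by ring) (by rw [abs_neg, abs_of_pos h0]) x
    rw [law_apply, Set.indicator_of_mem m1, Set.indicator_of_mem m2]
    simp only [Pi.one_apply, mul_one]
    rw [add_assoc, ← ENNReal.ofReal_add hd hd]
    refine le_trans (le_of_eq ?_) le_add_self
    congr 1
    ring

/-- the coefficient matrix `A = (1, 0)ᵀ` -/
def matA : Matrix (Fin 2) (Fin 1) ℝ := !![1; 0]

/-- the right-hand side `B = (1, 1)ᵀ` -/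
def matB : Matrix (Fin 2) (Fin 1) ℝ := !![1; 1]

lemma frob_val (x : ℝ) : frob (matA * !![x] - matB) = Real.sqrt ((x - 1) ^ 2 + 1) := by
  unfold frob matA matB
  congr 1
  simp [Fin.sum_univ_two, Matrix.mul_apply]

lemma eq_of (X : Matrix (Fin 1) (Fin 1) ℝ) : X = !![X 0 0] := by
  ext i j
  fin_cases i
  fin_cases j
  rfl

lemma opt_eq : opt matA matB = 1 := by
  unfold opt
  apply le_antisymm
  · refine (ciInf_le ⟨0, ?_⟩ (!![1] : Matrix (Fin 1) (Fin 1) ℝ)).trans ?_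
    · rintro _ ⟨X, rfl⟩
      exact Real.sqrt_nonneg _
    · rw [frob_val]; simp
  · refine le_ciInf (fun X => ?_)
    rw [eq_of X, frob_val]
    apply Real.le_sqrt_of_sq_le
    nlinarith [sq_nonneg (X 0 0 - 1)]

lemma pinv_zero' : pinv (0 : Matrix (Fin 2) (Fin 1) ℝ) = 0 :=
  pinv_eq ⟨by simp, by simp, by simp, by simp⟩

lemma pinv_col {c : ℝ} (hc : c ≠ 0) : pinv (!![c; 0] : Matrix (Fin 2) (Fin 1) ℝ) = !![c⁻¹, 0] := by
  apply pinv_eq
  have e1 : (!![c; 0] : Matrix (Fin 2) (Fin 1) ℝ) * !![c⁻¹, 0] = !![1, 0; 0, 0] := by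
    ext i j
    fin_cases i <;> fin_cases j <;> simp [Matrix.mul_apply, hc]
  have e2 : (!![c⁻¹, 0] : Matrix (Fin 1) (Fin 2) ℝ) * !![c; 0] = !![1] := by
    ext i j
    fin_cases i <;> fin_cases j <;> simp [Matrix.mul_apply, hc]
  refine ⟨?_, ?_, ?_, ?_⟩
  · rw [e1]
    ext i j
    fin_cases i <;> fin_cases j <;> simp [Matrix.mul_apply]
  · rw [e2]
    ext i j
    fin_cases i <;> fin_cases j <;> simp [Matrix.mul_apply]
  · rw [e1]
    ext i j
    fin_cases i <;> fin_cases j <;> simp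
  · rw [e2]
    ext i j
    fin_cases i <;> fin_cases j <;> simp

lemma solve_zero : sketchSolve (0 : Matrix (Fin 2) (Fin 2) ℝ) matA matB = !![0] := by
  unfold sketchSolve
  rw [Matrix.transpose_zero, Matrix.zero_mul, pinv_zero', Matrix.zero_mul]
  ext i j
  simp

lemma solve_val {c a b : ℝ} (hc : c ≠ 0) :
    sketchSolve (c • !![1, 0; a, b] : Matrix (Fin 2) (Fin 2) ℝ) matA matB = !![1 + a] := by
  unfold sketchSolve
  have e1 : ((c • !![1, 0; a, b] : Matrix (Fin 2) (Fin 2) ℝ)ᵀ * matA) = !![c; 0] := by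
    ext i j
    fin_cases i <;> fin_cases j <;> simp [Matrix.mul_apply, matA, Fin.sum_univ_two]
  rw [e1, pinv_col hc]
  ext i j
  fin_cases i
  fin_cases j
  simp [Matrix.mul_apply, matB, Fin.sum_univ_two]
  field_simp

/-- for small `ε` the bound fails surely -/
lemma fails {δ C ε : ℝ} (h0 : 0 < δ) (h1 : δ < 1) (hε : C * ε < δ ^ 2 / 4) (α : ℝ) (hα : α ≤ 1) :
    (ex δ h0 h1 1 α hα).P {ω | frob (matA * sketchSolve ((ex δ h0 h1 1 α hα).S ω) matA matB - matB)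
      ≤ (1 + C * ε) * opt matA matB} = 0 := by
  have hc : (Real.sqrt (1 - δ))⁻¹ ≠ 0 := inv_ne_zero (Real.sqrt_pos.2 (by linarith)).ne'
  have hcase : ∀ ω : Fin 3, ∃ x : ℝ, δ ^ 2 ≤ (x - 1) ^ 2 ∧
      sketchSolve (val δ ω) matA matB = !![x] := by
    intro ω
    fin_cases ω
    · exact ⟨0, by nlinarith, solve_zero⟩
    · exact ⟨1 + δ, by nlinarith, solve_val hc⟩
    · exact ⟨1 + -δ, by nlinarith, solve_val hc⟩
  have hempty : {ω : Fin 3 | frob (matA * sketchSolve (val δ ω) matA matB - matB)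
      ≤ (1 + C * ε) * opt matA matB} = ∅ := by
    ext ω
    simp only [Set.mem_ofPred_eq, Set.mem_empty_iff_false, iff_false, not_le]
    obtain ⟨x, hx, hs⟩ := hcase ω
    rw [hs, frob_val, opt_eq, mul_one]
    refine lt_of_lt_of_le ?_ (Real.sqrt_le_sqrt (by linarith : δ ^ 2 + 1 ≤ (x - 1) ^ 2 + 1))
    rcases lt_or_ge (1 + C * ε) 0 with hneg | hnn
    · exact hneg.trans_le (Real.sqrt_nonneg _)
    · apply Real.lt_sqrt_of_sq_lt
      have h5 : 1 + C * ε < 1 + δ ^ 2 / 4 := by linarith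
      have h6 : (1 + C * ε) ^ 2 < (1 + δ ^ 2 / 4) ^ 2 := pow_lt_pow_left₀ h5 hnn two_ne_zero
      have h7 : δ ^ 2 < 1 := by nlinarith
      nlinarith [mul_pos (pow_pos h0 2) (sub_pos.2 h7)]
  show law δ _ = 0
  exact (congrArg (law δ) hempty).trans (measure_empty)

lemma rank_matA : matA.rank = 1 := by
  have h1 : Function.Injective matA.mulVecLin := by
    intro x y hxy
    have h2 := congrFun hxy 0
    simp [matA, Matrix.mulVecLin_apply, Matrix.mulVec, dotProduct] at h2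
    funext i
    fin_cases i
    simpa using h2
  unfold Matrix.rank
  rw [LinearMap.finrank_range_of_inj h1]
  simp

/-- **Main result.**  The relative-error bound with the factor `1 + C ε` fails for every constant
`C` and every `c₀ > 0` for oblivious subspace injections whose failure probability is `1 / 100`
(negative answer to the question). The same is true for every fixed failure probability
`δ ∈ (0,1)`, with `ε` as small as one likes: then some OSI of dimension `d` with injectivity `1 - ε`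
satisfies the bound with probability zero (already for `n = k = 2`, `d = p = 1`). -/
theorem result :
    (¬ ∃ C c₀ : ℝ, 0 < c₀ ∧ ∀ n d p k : ℕ, 0 < n → 0 < d → 0 < p → 0 < k →
      ∀ ε : ℝ, 0 < ε → ε < 1 →
      ∀ (A : Matrix (Fin n) (Fin d) ℝ) (B : Matrix (Fin n) (Fin p) ℝ)
        (O : OSI n k d (1 - ε) (1 / 100)), A.rank = d →
        ENNReal.ofReal c₀ ≤ O.P {ω | frob (A * sketchSolve (O.S ω) A B - B)
          ≤ (1 + C * ε) * opt A B}) ∧
    (∀ δ : ℝ, 0 < δ → δ < 1 → ∀ C ε₀ : ℝ, 0 < ε₀ → ∃ ε : ℝ, 0 < ε ∧ ε < 1 ∧ ε < ε₀ ∧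
      ∃ (A : Matrix (Fin 2) (Fin 1) ℝ) (B : Matrix (Fin 2) (Fin 1) ℝ) (O : OSI 2 2 1 (1 - ε) δ),
        A.rank = 1 ∧ 0 < opt A B ∧
        O.P {ω | frob (A * sketchSolve (O.S ω) A B - B) ≤ (1 + C * ε) * opt A B} = 0) := by
  have main : ∀ δ : ℝ, 0 < δ → δ < 1 → ∀ C ε₀ : ℝ, 0 < ε₀ → ∃ ε : ℝ, 0 < ε ∧ ε < 1 ∧ ε < ε₀ ∧
      ∃ (A : Matrix (Fin 2) (Fin 1) ℝ) (B : Matrix (Fin 2) (Fin 1) ℝ) (O : OSI 2 2 1 (1 - ε) δ),
        A.rank = 1 ∧ 0 < opt A B ∧
        O.P {ω | frob (A * sketchSolve (O.S ω) A B - B) ≤ (1 + C * ε) * opt A B} = 0 := by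
    intro δ h0 h1 C ε₀ hε₀
    obtain ⟨ε, hε, hlt⟩ : ∃ ε : ℝ, 0 < ε ∧ ε < min 1 (min ε₀ (δ ^ 2 / 4 / (|C| + 1))) := by
      apply exists_between
      apply lt_min one_pos (lt_min hε₀ _)
      positivity
    have hl1 := lt_of_lt_of_le hlt (min_le_left _ _)
    have hl2 := lt_of_lt_of_le hlt ((min_le_right _ _).trans (min_le_left _ _))
    have hl3 := lt_of_lt_of_le hlt ((min_le_right _ _).trans (min_le_right _ _))
    rw [lt_div_iff₀ (by positivity)] at hl3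
    have hC : C * ε < δ ^ 2 / 4 := by
      have := le_abs_self C
      nlinarith
    exact ⟨ε, hε, hl1, hl2, matA, matB, ex δ h0 h1 1 (1 - ε) (by linarith), rank_matA,
      by rw [opt_eq]; exact one_pos, fails h0 h1 hC (1 - ε) (by linarith)⟩
  refine ⟨?_, main⟩
  rintro ⟨C, c₀, hc₀, H⟩
  obtain ⟨ε, hε, hε1, -, A, B, O, hA, -, hP⟩ := main (1 / 100) (by norm_num) (by norm_num) C 1 one_pos
  have h1 := H 2 1 1 2 (by norm_num) (by norm_num) (by norm_num) (by norm_num) ε hε hε1 A B O hA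
  rw [hP] at h1
  have h2 := ENNReal.ofReal_pos.2 hc₀
  exact absurd h1 (not_le.2 h2)

end Pool.Agent.Results.MP_4d58d7_an.FixedFailureProb
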